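import Pool.Agent.Helper30.Brouwer.Ball

/-!
Kakutani's fixed point theorem, and Brouwer's theorem for compact convex sets.
-/
namespace Pool.Agent.Helper30.Brouwer

open Set Metric Topology

section Inner

variable {E : Type*} [NormedAddCommGroup E] [InnerProductSpace ℝ E] [FiniteDimensional ℝ E]

/-- Approximate fixed points of a correspondence with nonempty values. -/
theorem kakutani_approx (K : Set E) (R : Set (E × E)) (hK : IsCompact K) (hKc : Convex ℝ K)
    (hKn : K.Nonempty) (hR : ∀ x ∈ K, ∃ y ∈ K, (x, y) ∈ R) (ε : ℝ) (hε : 0 < ε) :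
    ∃ x ∈ K, x ∈ convexHull ℝ {y | y ∈ K ∧ ∃ z ∈ K, ‖x - z‖ < ε ∧ (z, y) ∈ R} := by
  classical
  -- a finite net
  obtain ⟨t, htK, htf, htc⟩ := hK.finite_cover_balls hε
  choose! Y hYK hYR using hR
  obtain ⟨s, hs⟩ := htf.exists_finset_coe
  have hcover : ∀ x : E, ∃ z ∈ s, ‖x - z‖ < infDist x K + ε := by
    intro x
    obtain ⟨w, hw, hwd⟩ := hK.exists_infDist_eq_dist hKn x
    have := htc hw
    simp only [mem_iUnion, mem_ball, exists_prop] at this
    obtain ⟨z, hz, hzd⟩ := this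
    refine ⟨z, by rw [← Finset.mem_coe, hs]; exact hz, ?_⟩
    rw [← dist_eq_norm]
    calc dist x z ≤ dist x w + dist w z := dist_triangle _ _ _
      _ < infDist x K + ε := by rw [hwd]; linarith
  let φ : E → E → ℝ := fun z x => max 0 (infDist x K + ε - ‖x - z‖)
  have hφc : ∀ z, Continuous (φ z) := by
    intro z
    refine continuous_const.max ?_
    exact ((continuous_infDist_pt K).add continuous_const).sub
      (continuous_id.sub continuous_const).norm
  have hφ0 : ∀ z x, 0 ≤ φ z x := fun z x => le_max_left _ _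
  let Φ : E → ℝ := fun x => ∑ z ∈ s, φ z x
  have hΦpos : ∀ x, 0 < Φ x := by
    intro x
    obtain ⟨z, hz, hzd⟩ := hcover x
    refine Finset.sum_pos' (fun w _ => hφ0 w x) ⟨z, hz, ?_⟩
    exact lt_max_of_lt_right (by linarith)
  have hΦc : Continuous Φ := continuous_finsetSum _ fun z _ => hφc z
  let F : E → E := fun x => ∑ z ∈ s, (φ z x / Φ x) • Y z
  have hFc : Continuous F := by
    refine continuous_finsetSum _ fun z _ => ?_
    exact ((hφc z).div hΦc fun x => (hΦpos x).ne').smul continuous_const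
  have hsK : ∀ z ∈ s, z ∈ K := by
    intro z hz
    apply htK
    rw [← hs]; exact hz
  have hsum : ∀ x, ∑ z ∈ s, φ z x / Φ x = 1 := by
    intro x
    rw [← Finset.sum_div]
    exact div_self (hΦpos x).ne'
  have hFK : ∀ x, F x ∈ K := by
    intro x
    exact hKc.sum_mem (fun z _ => div_nonneg (hφ0 z x) (hΦpos x).le) (hsum x)
      (fun z hz => hYK z (hsK z hz))
  obtain ⟨r, hr⟩ := hK.isBounded.subset_closedBall (0 : E)
  have hr' : K ⊆ closedBall (0 : E) (max r 0) := hr.trans (closedBall_subset_closedBall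
    (le_max_left _ _))
  obtain ⟨x, -, hx⟩ := brouwer_ball (max r 0) (le_max_right _ _) F hFc.continuousOn
    (fun x _ => hr' (hFK x))
  have hxK : x ∈ K := by rw [← hx]; exact hFK x
  refine ⟨x, hxK, ?_⟩
  have hd : infDist x K = 0 := infDist_zero_of_mem hxK
  -- only the active points matter
  have hF2 : F x = ∑ z ∈ s with ‖x - z‖ < ε, (φ z x / Φ x) • Y z := by
    rw [Finset.sum_filter]
    refine Finset.sum_congr rfl fun z _ => ?_
    split_ifs with h
    · rfl
    · have : φ z x = 0 := by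
        simp only [φ, hd, zero_add]
        exact max_eq_left (by linarith [not_lt.1 h])
      rw [this, zero_div, zero_smul]
  have hsum2 : ∑ z ∈ s with ‖x - z‖ < ε, φ z x / Φ x = 1 := by
    rw [← hsum x, Finset.sum_filter]
    refine Finset.sum_congr rfl fun z _ => ?_
    split_ifs with h
    · rfl
    · have : φ z x = 0 := by
        simp only [φ, hd, zero_add]
        exact max_eq_left (by linarith [not_lt.1 h])
      rw [this, zero_div]
  have hconv : Convex ℝ (convexHull ℝ {y | y ∈ K ∧ ∃ z ∈ K, ‖x - z‖ < ε ∧ (z, y) ∈ R}) :=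
    convex_convexHull ℝ _
  have hmem := hconv.sum_mem (t := s.filter fun z => ‖x - z‖ < ε)
    (w := fun z => φ z x / Φ x) (z := Y)
    (fun z _ => div_nonneg (hφ0 z x) (hΦpos x).le) hsum2 (by
      intro z hz
      rw [Finset.mem_filter] at hz
      apply subset_convexHull
      exact ⟨hYK z (hsK z hz.1), z, hsK z hz.1, hz.2, hYR z (hsK z hz.1)⟩)
  rw [← hF2, hx] at hmem
  exact hmem

/-- **Kakutani's fixed point theorem** in a finite dimensional inner product space. -/
theorem kakutani_inner (K : Set E) (R : Set (E × E)) (hK : IsCompact K) (hKc : Convex ℝ K)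
    (hKn : K.Nonempty) (hRc : IsClosed R) (hR : ∀ x ∈ K, ∃ y ∈ K, (x, y) ∈ R)
    (hconv : ∀ x ∈ K, Convex ℝ {y | y ∈ K ∧ (x, y) ∈ R}) :
    ∃ x ∈ K, (x, x) ∈ R := by
  have happ : ∀ n : ℕ, ∃ x ∈ K, x ∈ convexHull ℝ
      {y | y ∈ K ∧ ∃ z ∈ K, ‖x - z‖ < 1 / ((n : ℝ) + 1) ∧ (z, y) ∈ R} := fun n =>
    kakutani_approx K R hK hKc hKn hR _ (by positivity)
  choose u huK hu using happ
  obtain ⟨x, hxK, ψ, hψ, hlim⟩ := hK.tendsto_subseq huK
  refine ⟨x, hxK, ?_⟩
  by_contra hcon
  set S : Set E := {y | y ∈ K ∧ (x, y) ∈ R} with hS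
  have hSc : IsClosed S := by
    have h1 : S = K ∩ (fun y => (x, y)) ⁻¹' R := rfl
    rw [h1]
    exact hK.isClosed.inter (hRc.preimage (by fun_prop))
  have hxS : x ∉ S := fun h => hcon h.2
  obtain ⟨ℓ, c, hc1, hc2⟩ := geometric_hahn_banach_point_closed (hconv x hxK) hSc hxS
  -- the bad set
  let B : Set (E × E) := ((K ×ˢ K) ∩ R) ∩ {q | ℓ q.2 ≤ c}
  have hB : IsCompact B := by
    refine ((hK.prod hK).inter_right hRc).inter_right ?_
    exact isClosed_le (ℓ.continuous.comp continuous_snd) continuous_const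
  have hB1 : IsClosed (Prod.fst '' B) := (hB.image continuous_fst).isClosed
  have hxB : x ∉ Prod.fst '' B := by
    rintro ⟨⟨p, q⟩, hpq, hp⟩
    simp only at hp
    subst hp
    have h1 : q ∈ S := ⟨hpq.1.1.2, hpq.1.2⟩
    exact absurd (hc2 q h1) (not_lt.2 hpq.2)
  obtain ⟨δ, hδ, hball⟩ := Metric.isOpen_iff.1 hB1.isOpen_compl x hxB
  have hev1 : ∀ᶠ n in Filter.atTop, dist (u (ψ n)) x < δ / 2 :=
    (Metric.tendsto_nhds.1 hlim) (δ / 2) (by positivity)
  have hev2 : ∀ᶠ n : ℕ in Filter.atTop, 1 / (((ψ n : ℕ) : ℝ) + 1) < δ / 2 := by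
    have h1 : Filter.Tendsto (fun n : ℕ => 1 / ((n : ℝ) + 1)) Filter.atTop (𝓝 0) :=
      tendsto_one_div_add_atTop_nhds_zero_nat
    have h2 := h1.comp hψ.tendsto_atTop
    exact h2.eventually (gt_mem_nhds (by positivity : (0 : ℝ) < δ / 2))
  have hev3 : ∀ᶠ n in Filter.atTop, c ≤ ℓ (u (ψ n)) := by
    filter_upwards [hev1, hev2] with n h1 h2
    have hsub : {y | y ∈ K ∧ ∃ z ∈ K, ‖u (ψ n) - z‖ < 1 / (((ψ n : ℕ) : ℝ) + 1) ∧ (z, y) ∈ R} ⊆
        {y | c ≤ ℓ y} := by
      rintro y ⟨hyK, z, hzK, hzd, hzR⟩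
      by_contra hcy
      have hcy' : ℓ y ≤ c := (not_le.1 hcy).le
      have hz1 : z ∈ ball x δ := by
        rw [mem_ball]
        calc dist z x ≤ dist z (u (ψ n)) + dist (u (ψ n)) x := dist_triangle _ _ _
          _ < δ / 2 + δ / 2 := by
            rw [dist_comm z, dist_eq_norm (u (ψ n)) z]
            linarith
          _ = δ := by ring
      exact hball hz1 ⟨(z, y), ⟨⟨⟨hzK, hyK⟩, hzR⟩, hcy'⟩, rfl⟩
    have hcv : Convex ℝ {y : E | c ≤ ℓ y} := convex_halfSpace_ge ℓ.toLinearMap.isLinear c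
    exact (convexHull_min hsub hcv) (hu (ψ n))
  have hlim2 : Filter.Tendsto (fun n => ℓ (u (ψ n))) Filter.atTop (𝓝 (ℓ x)) :=
    (ℓ.continuous.tendsto x).comp hlim
  have : c ≤ ℓ x := ge_of_tendsto hlim2 hev3
  linarith

end Inner

section General

variable {V : Type*} [NormedAddCommGroup V] [NormedSpace ℝ V] [FiniteDimensional ℝ V]

/-- **Kakutani's fixed point theorem** in a finite dimensional real normed space: a closed
relation on a nonempty compact convex set with nonempty convex values has a fixed point. -/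
theorem kakutani_fd (K : Set V) (R : Set (V × V))
    (hK : IsCompact K) (hKc : Convex ℝ K) (hKn : K.Nonempty) (hRc : IsClosed R)
    (hR : ∀ x ∈ K, ∃ y ∈ K, (x, y) ∈ R)
    (hconv : ∀ x ∈ K, Convex ℝ {y | y ∈ K ∧ (x, y) ∈ R}) :
    ∃ x ∈ K, (x, x) ∈ R := by
  let F := EuclideanSpace ℝ (Fin (Module.finrank ℝ V))
  let e : F ≃L[ℝ] V := (toEuclidean (E := V)).symm
  let K' : Set F := e ⁻¹' K
  let R' : Set (F × F) := {q | (e q.1, e q.2) ∈ R}
  have hK' : IsCompact K' := e.toHomeomorph.isCompact_preimage.2 hK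
  have hKc' : Convex ℝ K' := hKc.linear_preimage (e : F →ₗ[ℝ] V)
  have hKn' : K'.Nonempty := by
    obtain ⟨x, hx⟩ := hKn
    exact ⟨e.symm x, by simpa [K'] using hx⟩
  have hRc' : IsClosed R' := by
    refine hRc.preimage ?_
    exact (e.continuous.comp continuous_fst).prodMk (e.continuous.comp continuous_snd)
  obtain ⟨x, hx, hxR⟩ := kakutani_inner K' R' hK' hKc' hKn' hRc' (by
    intro x hx
    obtain ⟨y, hy, hxy⟩ := hR (e x) hx
    exact ⟨e.symm y, by simpa [K'] using hy, by simpa [R'] using hxy⟩) (by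
    intro x hx
    have h1 := (hconv (e x) hx).linear_preimage (e : F →ₗ[ℝ] V)
    exact h1)
  exact ⟨e x, hx, hxR⟩

/-- **Brouwer's fixed point theorem** for nonempty compact convex subsets of a finite dimensional
real normed space. -/
theorem brouwer_fd (K : Set V) (hK : IsCompact K)
    (hKc : Convex ℝ K) (hKn : K.Nonempty) (f : V → V) (hf : ContinuousOn f K)
    (hmaps : MapsTo f K K) : ∃ x ∈ K, f x = x := by
  let R : Set (V × V) := (fun x => (x, f x)) '' K
  have hRc : IsClosed R := (hK.image_of_continuousOn (continuousOn_id.prodMk hf)).isClosed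
  have hsing : ∀ x ∈ K, {y | y ∈ K ∧ (x, y) ∈ R} = {f x} := by
    intro x hx
    ext y
    simp only [mem_ofPred_eq, mem_singleton_iff, R, mem_image, Prod.mk.injEq]
    constructor
    · rintro ⟨-, z, -, rfl, rfl⟩; rfl
    · rintro rfl; exact ⟨hmaps hx, x, hx, rfl, rfl⟩
  obtain ⟨x, hx, hxR⟩ := kakutani_fd K R hK hKc hKn hRc
    (fun x hx => ⟨f x, hmaps hx, ⟨x, hx, rfl⟩⟩) (by
      intro x hx
      rw [hsing x hx]
      exact convex_singleton _)
  obtain ⟨z, hz, hzz⟩ := hxR
  simp only [Prod.mk.injEq] at hzz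
  refine ⟨x, hx, ?_⟩
  rw [← hzz.1]
  rw [hzz.2, hzz.1]

end General

end Pool.Agent.Helper30.Brouwer
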