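import Pool.Agent.Helper30.Brouwer.Retract

/-!
Brouwer's fixed point theorem for closed balls of finite dimensional inner product spaces.
-/
namespace Pool.Agent.Helper30.Brouwer

open Set Metric Topology

variable {E : Type*} [NormedAddCommGroup E] [InnerProductSpace ℝ E] [FiniteDimensional ℝ E]

/-- Brouwer for `C^1` maps of the unit ball. -/
theorem brouwer_smooth (f : E → E) (hf : ContDiff ℝ 1 f)
    (hmaps : ∀ x ∈ closedBall (0 : E) 1, ‖f x‖ ≤ 1) :
    ∃ x ∈ closedBall (0 : E) 1, f x = x := by
  by_contra hcon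
  push Not at hcon
  let u : E → E := fun x => x - f x
  let a : E → ℝ := fun x => inner ℝ (u x) (u x)
  let b : E → ℝ := fun x => inner ℝ x (u x)
  let c : E → ℝ := fun x => 1 - inner ℝ x x
  let lam : E → ℝ := fun x => (- b x + Real.sqrt (b x ^ 2 + a x * c x)) / a x
  have hu : ContDiff ℝ 1 u := contDiff_id.sub hf
  have ha : ContDiff ℝ 1 a := hu.inner ℝ hu
  have hb : ContDiff ℝ 1 b := contDiff_id.inner ℝ hu
  have hc : ContDiff ℝ 1 c := contDiff_const.sub (contDiff_id.inner ℝ contDiff_id)
  have hapos : ∀ x ∈ closedBall (0 : E) 1, 0 < a x := by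
    intro x hx
    have : u x ≠ 0 := fun h => hcon x hx (sub_eq_zero.1 h).symm
    exact real_inner_self_pos.2 this
  have hbpos : ∀ x ∈ sphere (0 : E) 1, 0 < b x := by
    intro x hx
    have hx1 : ‖x‖ = 1 := by simpa using hx
    have hx' : x ∈ closedBall (0 : E) 1 := sphere_subset_closedBall hx
    have h1 := hapos x hx'
    have h2 := hmaps x hx'
    have h3 : a x = 1 - 2 * inner ℝ x (f x) + ‖f x‖ ^ 2 := by
      simp only [a, u]
      rw [real_inner_self_eq_norm_sq, norm_sub_sq_real, hx1]; ring
    have h4 : b x = 1 - inner ℝ x (f x) := by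
      simp only [b, u]
      rw [inner_sub_right, real_inner_self_eq_norm_sq, hx1]; ring
    have h5 : ‖f x‖ ^ 2 ≤ 1 := by
      have := norm_nonneg (f x)
      nlinarith
    rw [h4]
    linarith
  have hdisc : ∀ x ∈ closedBall (0 : E) 1, 0 < b x ^ 2 + a x * c x := by
    intro x hx
    have hx1 : ‖x‖ ≤ 1 := by simpa using hx
    rcases hx1.lt_or_eq with h | h
    · have h1 : 0 < c x := by
        simp only [c]
        rw [real_inner_self_eq_norm_sq]
        have := norm_nonneg x
        nlinarith
      have := mul_pos (hapos x hx) h1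
      nlinarith [sq_nonneg (b x)]
    · have h1 : c x = 0 := by
        simp only [c]
        rw [real_inner_self_eq_norm_sq, h]; norm_num
      rw [h1, mul_zero, add_zero]
      exact pow_pos (hbpos x (by simpa using h)) 2
  have hlam : ∀ x ∈ closedBall (0 : E) 1, ContDiffAt ℝ 1 lam x := by
    intro x hx
    refine ContDiffAt.div ?_ ha.contDiffAt (hapos x hx).ne'
    refine hb.contDiffAt.neg.add ?_
    exact ContDiffAt.sqrt (((hb.pow 2).add (ha.mul hc)).contDiffAt) (hdisc x hx).ne'
  refine no_retraction (fun x => lam x • u x) ?_ ?_ ?_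
  · intro x hx
    exact (hlam x hx).smul hu.contDiffAt
  · intro x hx
    have h1 := hapos x hx
    have h2 := Real.sq_sqrt (hdisc x hx).le
    have h3 : ‖x + lam x • u x‖ ^ 2 = 1 := by
      rw [← real_inner_self_eq_norm_sq, inner_add_left, inner_add_right, inner_add_right,
        inner_smul_left, inner_smul_right, inner_smul_left, inner_smul_right]
      have e1 : inner ℝ (u x) x = b x := real_inner_comm _ _
      have e2 : inner ℝ x (u x) = b x := rfl
      have e3 : inner ℝ (u x) (u x) = a x := rfl
      have e4 : inner ℝ x x = 1 - c x := by simp [c]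
      rw [e1, e2, e3, e4]
      have e5 : lam x * a x = - b x + Real.sqrt (b x ^ 2 + a x * c x) := by
        simp only [lam]
        rw [div_mul_cancel₀ _ h1.ne']
      have e6 : a x * (1 - c x + lam x * b x + (lam x * b x + lam x * (lam x * a x))) =
          a x * 1 := by
        calc a x * (1 - c x + lam x * b x + (lam x * b x + lam x * (lam x * a x)))
            = a x * (1 - c x) + 2 * b x * (lam x * a x) + (lam x * a x) ^ 2 := by ring
          _ = a x * (1 - c x) + 2 * b x * (- b x + Real.sqrt (b x ^ 2 + a x * c x)) +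
              (- b x + Real.sqrt (b x ^ 2 + a x * c x)) ^ 2 := by rw [e5]
          _ = a x * (1 - c x) - b x ^ 2 + (Real.sqrt (b x ^ 2 + a x * c x)) ^ 2 := by ring
          _ = a x * 1 := by rw [h2]; ring
      have e7 := mul_left_cancel₀ h1.ne' e6
      simpa using e7
    have h4 : 0 ≤ ‖x + lam x • u x‖ := norm_nonneg _
    nlinarith
  · intro x hx
    have hx1 : ‖x‖ = 1 := by simpa using hx
    have h1 : c x = 0 := by
      simp only [c]
      rw [real_inner_self_eq_norm_sq, hx1]; norm_num
    have h2 : lam x = 0 := by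
      simp only [lam]
      rw [h1, mul_zero, add_zero, Real.sqrt_sq (hbpos x hx).le]
      simp
    simp [h2]

/-- Brouwer for continuous maps `E → E` that map the unit ball into itself. -/
theorem brouwer_unit_aux (f : E → E) (hf : Continuous f)
    (hmaps : ∀ x, ‖f x‖ ≤ 1) :
    ∃ x ∈ closedBall (0 : E) 1, f x = x := by
  by_contra hcon
  push Not at hcon
  have hne : (closedBall (0 : E) 1).Nonempty := ⟨0, by simp⟩
  obtain ⟨z, hz, hmin⟩ := (isCompact_closedBall (0 : E) 1).exists_isMinOn hne
    (f := fun x => ‖f x - x‖) ((hf.sub continuous_id).norm.continuousOn)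
  set m : ℝ := ‖f z - z‖ with hm
  have hmpos : 0 < m := norm_pos_iff.2 (sub_ne_zero.2 (hcon z hz))
  obtain ⟨p, hp, hpf, -⟩ := hf.exists_contDiff_approx (n := 1) (ε := fun _ => m / 4)
    continuous_const (fun _ => by positivity)
  have hps : ∀ x, ‖p x‖ ≤ 1 + m / 4 := by
    intro x
    have h1 := hpf x
    rw [dist_eq_norm] at h1
    calc ‖p x‖ = ‖(p x - f x) + f x‖ := by rw [sub_add_cancel]
      _ ≤ ‖p x - f x‖ + ‖f x‖ := norm_add_le _ _
      _ ≤ 1 + m / 4 := by linarith [hmaps x]
  have hpos : 0 < 1 + m / 4 := by positivity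
  obtain ⟨x, hx, hfix⟩ := brouwer_smooth (fun x => (1 + m / 4)⁻¹ • p x)
    (by
      have hp' : ContDiff ℝ 1 p := by exact_mod_cast hp
      exact contDiff_const.smul hp') (by
      intro x _
      rw [norm_smul, norm_inv, Real.norm_of_nonneg hpos.le, inv_mul_le_iff₀ hpos, mul_one]
      exact hps x)
  have hpx : p x = (1 + m / 4) • x := by
    have := congrArg (fun y => (1 + m / 4) • y) hfix
    simpa [smul_smul, mul_inv_cancel₀ hpos.ne'] using this
  have hxn : ‖x‖ ≤ 1 := by simpa using hx
  have h1 : ‖f x - x‖ ≤ m / 4 + m / 4 := by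
    calc ‖f x - x‖ = ‖(f x - p x) + (p x - x)‖ := by rw [sub_add_sub_cancel]
      _ ≤ ‖f x - p x‖ + ‖p x - x‖ := norm_add_le _ _
      _ ≤ m / 4 + m / 4 := by
        have h2 : ‖f x - p x‖ ≤ m / 4 := by
          have := (hpf x).le
          rwa [dist_comm, dist_eq_norm] at this
        have h3 : p x - x = (m / 4) • x := by
          rw [hpx, add_smul, one_smul]; abel
        have h4 : ‖p x - x‖ ≤ m / 4 := by
          rw [h3, norm_smul, Real.norm_of_nonneg (by positivity)]
          have : 0 ≤ m / 4 := by positivity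
          nlinarith
        linarith
  have h2 : m ≤ ‖f x - x‖ := hmin hx
  linarith

/-- **Brouwer's fixed point theorem** for closed balls around `0`. -/
theorem brouwer_ball (r : ℝ) (hr : 0 ≤ r) (f : E → E)
    (hf : ContinuousOn f (closedBall (0 : E) r))
    (hmaps : MapsTo f (closedBall (0 : E) r) (closedBall (0 : E) r)) :
    ∃ x ∈ closedBall (0 : E) r, f x = x := by
  rcases hr.eq_or_lt with h | hrpos
  · refine ⟨0, by simp [h], ?_⟩
    have := hmaps (show (0 : E) ∈ closedBall (0 : E) r by simp [hr])
    rw [← h] at this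
    simpa using this
  -- radial retraction
  have hρc : Continuous (fun x : E => (r / max 1 ‖x‖) • x) := by
    refine Continuous.smul ?_ continuous_id
    refine continuous_const.div (continuous_const.max continuous_norm) ?_
    intro x
    exact (lt_of_lt_of_le one_pos (le_max_left _ _)).ne'
  have hρm : ∀ x : E, (r / max 1 ‖x‖) • x ∈ closedBall (0 : E) r := by
    intro x
    rw [mem_closedBall_zero_iff, norm_smul, Real.norm_of_nonneg (by positivity)]
    rw [div_mul_eq_mul_div, div_le_iff₀ (by positivity)]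
    gcongr
    exact le_max_right _ _
  obtain ⟨x, hx, hfx⟩ := brouwer_unit_aux (fun x => r⁻¹ • f ((r / max 1 ‖x‖) • x))
    (continuous_const.smul (hf.comp_continuous hρc hρm)) (by
      intro x
      have h1 := hmaps (hρm x)
      rw [mem_closedBall_zero_iff] at h1
      rw [norm_smul, norm_inv, Real.norm_of_nonneg hr, inv_mul_le_iff₀ hrpos, mul_one]
      exact h1)
  have hxn : ‖x‖ ≤ 1 := by simpa using hx
  have h1 : max 1 ‖x‖ = 1 := max_eq_left hxn
  simp only [h1, div_one] at hfx
  refine ⟨r • x, ?_, ?_⟩
  · rw [mem_closedBall_zero_iff, norm_smul, Real.norm_of_nonneg hr]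
    nlinarith
  · have := congrArg (fun y => r • y) hfx
    simpa [smul_smul, mul_inv_cancel₀ hrpos.ne'] using this

end Pool.Agent.Helper30.Brouwer
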