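import Pool.Agent.Helper30.Brouwer.Kakutani
import Pool.Agent.Helper46.Dense.Stmts

namespace Pool.Agent.Helper30.Brouwer

/-- Kakutani's fixed point theorem, in the form asked for by helper46. -/
theorem kakutani.{u} : Pool.Agent.Helper46.Dense.KakutaniStmt.{u} := by
  intro ι _ K R hK hKc hKn hRc hR hconv
  exact kakutani_fd K R hK hKc hKn hRc hR hconv

end Pool.Agent.Helper30.Brouwer
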