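import Mathlib

/-!
No `C^1` retraction of the closed unit ball onto the sphere (Milnor-Rogers).
-/
namespace Pool.Agent.Helper30.Brouwer

open Set Metric MeasureTheory Polynomial Topology

section Det

variable {E : Type*} [NormedAddCommGroup E] [InnerProductSpace ℝ E] [FiniteDimensional ℝ E]

/-- `det (1 + t A)` is a polynomial in `t` of degree at most the dimension. -/
theorem exists_det_poly (A : E →L[ℝ] E) :
    ∃ p : ℝ[X], p.natDegree ≤ Module.finrank ℝ E ∧
      ∀ t : ℝ, p.eval t = (ContinuousLinearMap.id ℝ E + t • A).det := by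
  classical
  let b := Module.finBasis ℝ E
  let M := LinearMap.toMatrix b b (A : E →ₗ[ℝ] E)
  refine ⟨Matrix.det ((X : ℝ[X]) • M.map C + (1 : Matrix _ _ ℝ).map C), ?_, ?_⟩
  · simpa using natDegree_det_X_add_C_le M 1
  · intro t
    have h1 : (ContinuousLinearMap.id ℝ E + t • A).det =
        LinearMap.det ((LinearMap.id : E →ₗ[ℝ] E) + t • (A : E →ₗ[ℝ] E)) := rfl
    have h2 : LinearMap.toMatrix b b ((LinearMap.id : E →ₗ[ℝ] E) + t • (A : E →ₗ[ℝ] E)) =
        1 + t • M := by
      rw [map_add, map_smul, LinearMap.toMatrix_id]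
    rw [h1, ← LinearMap.det_toMatrix b, h2, ← Polynomial.coe_evalRingHom, RingHom.map_det]
    congr 1
    ext i j
    by_cases hij : i = j
    · subst hij
      simp [M, add_comm]
      ring
    · simp [M, hij]
      ring

/-- Interpolation: the value at `1` is a fixed linear combination of values at small nodes. -/
theorem exists_interp (n : ℕ) (δ : ℝ) (hδ : 0 < δ) :
    ∃ (v c : Fin (n + 1) → ℝ), (∀ i, 0 < v i ∧ v i < δ) ∧ ∑ i, c i = 1 ∧
      ∀ p : ℝ[X], p.natDegree ≤ n → p.eval 1 = ∑ i, c i * p.eval (v i) := by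
  classical
  let v : Fin (n + 1) → ℝ := fun i => δ * ((i : ℝ) + 1) / (n + 2)
  have hinj : Function.Injective v := by
    intro i j hij
    have h0 : ((n : ℝ) + 2) ≠ 0 := by positivity
    have : δ * ((i : ℝ) + 1) = δ * ((j : ℝ) + 1) := by
      have := hij
      simp only [v] at this
      rwa [div_left_inj' h0] at this
    have := mul_left_cancel₀ hδ.ne' this
    have h2 : (i : ℝ) = j := by linarith
    exact Fin.ext (by exact_mod_cast h2)
  have key : ∀ p : ℝ[X], p.natDegree ≤ n →
      p.eval 1 = ∑ i, (Lagrange.basis Finset.univ v i).eval 1 * p.eval (v i) := by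
    intro p hp
    have hdeg : p.degree < (Finset.univ : Finset (Fin (n + 1))).card := by
      rw [Finset.card_univ, Fintype.card_fin]
      exact (degree_le_natDegree).trans_lt (by exact_mod_cast Nat.lt_succ_of_le hp)
    have h := Lagrange.eq_interpolate (s := Finset.univ) (v := v) (hinj.injOn) hdeg
    conv_lhs => rw [h]
    rw [Lagrange.interpolate_apply, eval_finsetSum]
    refine Finset.sum_congr rfl fun i _ => ?_
    rw [eval_mul, eval_C, mul_comm]
  refine ⟨v, fun i => (Lagrange.basis Finset.univ v i).eval 1, ?_, ?_, key⟩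
  · intro i
    have hi : (i : ℝ) + 1 < n + 2 := by
      have := i.2
      have : ((i : ℕ) : ℝ) < (n : ℝ) + 1 := by exact_mod_cast this
      linarith
    refine ⟨by positivity, ?_⟩
    simp only [v]
    rw [div_lt_iff₀ (by positivity)]
    exact mul_lt_mul_of_pos_left hi hδ
  · have := key 1 (by simp)
    simpa using this.symm

/-- the determinant of `1 + A` is positive if `‖A‖ < 1`. -/
theorem det_pos_of_norm_lt (A : E →L[ℝ] E) (hA : ‖A‖ < 1) :
    0 < (ContinuousLinearMap.id ℝ E + A).det := by
  have hne : ∀ s ∈ Icc (0 : ℝ) 1, (ContinuousLinearMap.id ℝ E + s • A).det ≠ 0 := by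
    intro s hs
    have hlt : ‖-(s • A)‖ < 1 := by
      rw [norm_neg, norm_smul, Real.norm_of_nonneg hs.1]
      calc s * ‖A‖ ≤ 1 * ‖A‖ := by gcongr; exact hs.2
        _ < 1 := by simpa using hA
    have hu : IsUnit (1 - -(s • A)) := (Units.oneSub _ hlt).isUnit
    have hu' : IsUnit (ContinuousLinearMap.id ℝ E + s • A) := by
      have h1 : (1 - -(s • A)) = ContinuousLinearMap.id ℝ E + s • A := by
        rw [sub_neg_eq_add]; rfl
      rwa [h1] at hu
    have h3 : IsUnit ((ContinuousLinearMap.id ℝ E + s • A : E →L[ℝ] E) : E →ₗ[ℝ] E) := by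
      obtain ⟨B, hB1, hB2⟩ := isUnit_iff_exists.1 hu'
      refine isUnit_iff_exists.2 ⟨(B : E →ₗ[ℝ] E), ?_, ?_⟩
      · ext x; exact congrArg (fun L : E →L[ℝ] E => L x) hB1
      · ext x; exact congrArg (fun L : E →L[ℝ] E => L x) hB2
    have h4 := (LinearMap.isUnit_iff_isUnit_det _).1 h3
    exact h4.ne_zero
  by_contra hcon
  push Not at hcon
  have hc : ContinuousOn (fun s : ℝ => (ContinuousLinearMap.id ℝ E + s • A).det) (Icc 0 1) := by
    obtain ⟨p, -, hp⟩ := exists_det_poly A
    refine (p.continuous.continuousOn).congr ?_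
    intro s _
    exact (hp s).symm
  have h0 : (ContinuousLinearMap.id ℝ E + (0 : ℝ) • A).det = 1 := by
    rw [zero_smul, add_zero]
    exact LinearMap.det_id
  have h1 : (ContinuousLinearMap.id ℝ E + (1 : ℝ) • A).det ≤ 0 := by rwa [one_smul]
  have := intermediate_value_Icc' (zero_le_one) hc
  obtain ⟨s, hs, hs0⟩ := this (show (0 : ℝ) ∈ Icc _ _ from ⟨h1, by rw [h0]; exact zero_le_one⟩)
  exact hne s hs hs0

end Det

section Retract

variable {E : Type*} [NormedAddCommGroup E] [InnerProductSpace ℝ E] [FiniteDimensional ℝ E]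

/-- There is no `C^1` retraction of the closed unit ball onto the sphere. -/
theorem no_retraction (g : E → E) (hg : ∀ x ∈ closedBall (0 : E) 1, ContDiffAt ℝ 1 g x)
    (hr : ∀ x ∈ closedBall (0 : E) 1, ‖x + g x‖ = 1)
    (hs : ∀ x ∈ sphere (0 : E) 1, g x = 0) : False := by
  classical
  borelize E
  -- bound of the derivative
  have hfd : ContinuousOn (fderiv ℝ g) (closedBall (0 : E) 1) := by
    intro x hx
    exact ((hg x hx).continuousAt_fderiv one_ne_zero).continuousWithinAt
  obtain ⟨C, hC⟩ := (isCompact_closedBall (0 : E) 1).exists_bound_of_continuousOn hfd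
  have hdiff : ∀ x ∈ closedBall (0 : E) 1, DifferentiableAt ℝ g x := fun x hx =>
    (hg x hx).differentiableAt one_ne_zero
  have hLip : ∀ x ∈ closedBall (0 : E) 1, ∀ y ∈ closedBall (0 : E) 1,
      ‖g y - g x‖ ≤ C * ‖y - x‖ := fun x hx y hy =>
    (convex_closedBall (0 : E) 1).norm_image_sub_le_of_norm_fderiv_le hdiff hC hx hy
  have hC0 : 0 ≤ C := (norm_nonneg _).trans (hC 0 (by simp))
  set D : ℝ := 1 / (C + 2) with hD
  have hDpos : 0 < D := by positivity
  have hD1 : D < 1 := by
    rw [hD, div_lt_one (by positivity)]; linarith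
  have hCD : C * D < 1 := by
    rw [hD, mul_one_div, div_lt_one (by positivity)]; linarith
  have hball : ball (0 : E) 1 ⊆ closedBall (0 : E) 1 := ball_subset_closedBall
  -- the volume identity for small `t`
  have hvol : ∀ t : ℝ, 0 < t → t < D →
      ∫ x in ball (0 : E) 1, (ContinuousLinearMap.id ℝ E + t • fderiv ℝ g x).det =
        (volume : Measure E).real (ball (0 : E) 1) := by
    intro t ht0 htD
    have htC : t * C < 1 := by
      calc t * C ≤ D * C := by gcongr
        _ = C * D := mul_comm _ _
        _ < 1 := hCD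
    have ht1 : t < 1 := htD.trans hD1
    set f : E → E := fun x => x + t • g x with hf
    have hinj : InjOn f (closedBall (0 : E) 1) := by
      intro x hx y hy hxy
      have h1 : x - y = t • (g y - g x) := by
        have : x + t • g x = y + t • g y := hxy
        rw [smul_sub]
        rw [sub_eq_sub_iff_add_eq_add]
        rw [this, add_comm]
      have h2 : ‖x - y‖ ≤ t * C * ‖x - y‖ := by
        calc ‖x - y‖ = ‖t • (g y - g x)‖ := by rw [h1]
          _ = t * ‖g y - g x‖ := by rw [norm_smul, Real.norm_of_nonneg ht0.le]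
          _ ≤ t * (C * ‖y - x‖) := by gcongr; exact hLip x hx y hy
          _ = t * C * ‖x - y‖ := by rw [norm_sub_rev y x]; ring
      have h3 : ‖x - y‖ = 0 := by
        by_contra hne
        have hpos : 0 < ‖x - y‖ := lt_of_le_of_ne (norm_nonneg _) (Ne.symm hne)
        have : t * C * ‖x - y‖ < 1 * ‖x - y‖ := by gcongr
        linarith
      exact sub_eq_zero.1 (norm_eq_zero.1 h3)
    have hpos : ∀ x ∈ closedBall (0 : E) 1,
        0 < (ContinuousLinearMap.id ℝ E + t • fderiv ℝ g x).det := by
      intro x hx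
      apply det_pos_of_norm_lt
      rw [norm_smul, Real.norm_of_nonneg ht0.le]
      calc t * ‖fderiv ℝ g x‖ ≤ t * C := by gcongr; exact hC x hx
        _ < 1 := htC
    have hstrict : ∀ x ∈ closedBall (0 : E) 1,
        HasStrictFDerivAt f (ContinuousLinearMap.id ℝ E + t • fderiv ℝ g x) x := by
      intro x hx
      exact (hasStrictFDerivAt_id x).add
        (((hg x hx).hasStrictFDerivAt one_ne_zero).const_smul t)
    have hsub : f '' ball (0 : E) 1 ⊆ ball (0 : E) 1 := by
      rintro _ ⟨x, hx, rfl⟩
      have hx' : ‖x‖ < 1 := by simpa using hx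
      have h1 : f x = (1 - t) • x + t • (x + g x) := by
        simp only [hf, smul_add, sub_smul, one_smul]; abel
      rw [mem_ball_zero_iff, h1]
      calc ‖(1 - t) • x + t • (x + g x)‖ ≤ ‖(1 - t) • x‖ + ‖t • (x + g x)‖ := norm_add_le _ _
        _ = (1 - t) * ‖x‖ + t * 1 := by
          rw [norm_smul, norm_smul, Real.norm_of_nonneg ht0.le,
            Real.norm_of_nonneg (by linarith), hr x (hball hx)]
        _ < (1 - t) * 1 + t * 1 := by
          have : 0 < 1 - t := by linarith
          gcongr
        _ = 1 := by ring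
    have hopen : IsOpen (f '' ball (0 : E) 1) := by
      rw [isOpen_iff_mem_nhds]
      rintro _ ⟨x, hx, rfl⟩
      have hsurj : (ContinuousLinearMap.id ℝ E + t • fderiv ℝ g x).range = ⊤ := by
        have h1 := hpos x (hball hx)
        rw [LinearMap.range_eq_top]
        have h2 : IsUnit ((ContinuousLinearMap.id ℝ E + t • fderiv ℝ g x : E →L[ℝ] E) :
            E →ₗ[ℝ] E) := by
          rw [LinearMap.isUnit_iff_isUnit_det]
          exact (isUnit_iff_ne_zero).2 h1.ne'
        exact ((Module.End.isUnit_iff _).1 h2).2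
      rw [← (hstrict x (hball hx)).map_nhds_eq_of_surj hsurj]
      exact Filter.image_mem_map (isOpen_ball.mem_nhds hx)
    have hcont : ContinuousOn f (closedBall (0 : E) 1) := fun x hx =>
      (hstrict x hx).hasFDerivAt.continuousAt.continuousWithinAt
    have hclosed : IsClosed (f '' closedBall (0 : E) 1) :=
      ((isCompact_closedBall (0 : E) 1).image_of_continuousOn hcont).isClosed
    have hsup : ball (0 : E) 1 ⊆ f '' ball (0 : E) 1 := by
      apply IsPreconnected.subset_left_of_subset_union hopen hclosed.isOpen_compl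
      · rw [Set.disjoint_compl_right_iff_subset]
        exact image_mono hball
      · intro y hy
        by_cases hy2 : y ∈ f '' closedBall (0 : E) 1
        · left
          obtain ⟨x, hx, rfl⟩ := hy2
          refine ⟨x, ?_, rfl⟩
          by_contra hx2
          have hx3 : x ∈ sphere (0 : E) 1 := by
            rw [mem_sphere_zero_iff_norm]
            rw [mem_closedBall_zero_iff] at hx
            rw [mem_ball_zero_iff] at hx2
            linarith [not_lt.1 hx2]
          have : f x = x := by simp [hf, hs x hx3]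
          rw [this] at hy
          exact hx2 hy
        · right; exact hy2
      · refine ⟨f 0, hsub ⟨0, by simp, rfl⟩, ⟨0, by simp, rfl⟩⟩
      · exact (convex_ball (0 : E) 1).isPreconnected
    have heq : f '' ball (0 : E) 1 = ball (0 : E) 1 := Subset.antisymm hsub hsup
    have hmain := integral_image_eq_integral_abs_det_fderiv_smul (volume : Measure E)
      (measurableSet_ball (x := (0 : E)) (ε := 1))
      (fun x hx => ((hstrict x (hball hx)).hasFDerivAt).hasFDerivWithinAt)
      (hinj.mono hball) (fun _ => (1 : ℝ))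
    rw [heq] at hmain
    have h1 : ∫ x in ball (0 : E) 1, (1 : ℝ) = (volume : Measure E).real (ball (0 : E) 1) := by
      simp
    rw [h1] at hmain
    rw [hmain]
    refine setIntegral_congr_fun measurableSet_ball fun x hx => ?_
    rw [smul_eq_mul, mul_one, abs_of_pos (hpos x (hball hx))]
  -- interpolation
  obtain ⟨v, c, hv, hc, hint⟩ := exists_interp (Module.finrank ℝ E) D hDpos
  have hptw : ∀ x : E, (ContinuousLinearMap.id ℝ E + fderiv ℝ g x).det =
      ∑ i, c i * (ContinuousLinearMap.id ℝ E + v i • fderiv ℝ g x).det := by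
    intro x
    obtain ⟨p, hp, hpe⟩ := exists_det_poly (fderiv ℝ g x)
    have := hint p hp
    rw [hpe 1, one_smul] at this
    rw [this]
    refine Finset.sum_congr rfl fun i _ => ?_
    rw [hpe]
  have hintg : ∀ t : ℝ, IntegrableOn
      (fun x => (ContinuousLinearMap.id ℝ E + t • fderiv ℝ g x).det) (ball (0 : E) 1)
      volume := by
    intro t
    have hcd : Continuous (fun A : E →L[ℝ] E => A.det) := ContinuousLinearMap.continuous_det
    have : ContinuousOn (fun x => (ContinuousLinearMap.id ℝ E + t • fderiv ℝ g x).det)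
        (closedBall (0 : E) 1) := by
      refine hcd.comp_continuousOn ?_
      exact continuousOn_const.add (hfd.const_smul t)
    exact (this.integrableOn_compact (isCompact_closedBall _ _)).mono_set hball
  have hI : ∫ x in ball (0 : E) 1, (ContinuousLinearMap.id ℝ E + fderiv ℝ g x).det =
      (volume : Measure E).real (ball (0 : E) 1) := by
    simp_rw [hptw]
    rw [integral_finsetSum _ (fun i _ => (hintg (v i)).const_mul (c i))]
    simp_rw [integral_const_mul]
    rw [Finset.sum_congr rfl fun i _ => by rw [hvol (v i) (hv i).1 (hv i).2]]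
    rw [← Finset.sum_mul, hc, one_mul]
  -- the integrand vanishes
  have hzero : ∀ x ∈ ball (0 : E) 1, (ContinuousLinearMap.id ℝ E + fderiv ℝ g x).det = 0 := by
    intro x hx
    by_contra hne
    have h2 : IsUnit ((ContinuousLinearMap.id ℝ E + fderiv ℝ g x : E →L[ℝ] E) :
        E →ₗ[ℝ] E) := by
      rw [LinearMap.isUnit_iff_isUnit_det]
      exact (isUnit_iff_ne_zero).2 hne
    obtain ⟨h, hh⟩ := ((Module.End.isUnit_iff _).1 h2).2 (x + g x)
    have hh' : (ContinuousLinearMap.id ℝ E + fderiv ℝ g x) h = x + g x := hh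
    have hd : HasFDerivAt (fun y => y + g y) (ContinuousLinearMap.id ℝ E + fderiv ℝ g x) x :=
      (hasFDerivAt_id x).add (hdiff x (hball hx)).hasFDerivAt
    have hn := hd.norm_sq
    have hev : (fun y => ‖y + g y‖ ^ 2) =ᶠ[𝓝 x] fun _ => (1 : ℝ) := by
      filter_upwards [isOpen_ball.mem_nhds hx] with y hy
      rw [hr y (hball hy)]; norm_num
    have hconst : HasFDerivAt (fun y => ‖y + g y‖ ^ 2) (0 : E →L[ℝ] ℝ) x :=
      (hasFDerivAt_const (1 : ℝ) x).congr_of_eventuallyEq hev
    have huniq := hn.unique hconst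
    have h5 := congrArg (fun L : E →L[ℝ] ℝ => L h) huniq
    have h6 : ‖x + g x‖ = 1 := hr x (hball hx)
    have h7 : (2 : ℝ) * inner ℝ (x + g x) (x + g x) = 0 := by
      have h8 := h5
      simp only [nsmul_eq_mul, FunLike.coe_smul, Pi.smul_apply,
        ContinuousLinearMap.comp_apply, hh', innerSL_apply_apply] at h8
      simpa using h8
    rw [real_inner_self_eq_norm_sq, h6] at h7
    norm_num at h7
  have hfin : (volume : Measure E).real (ball (0 : E) 1) = 0 := by
    rw [← hI, setIntegral_congr_fun measurableSet_ball hzero]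
    simp
  have hpos : 0 < (volume : Measure E).real (ball (0 : E) 1) := by
    rw [Measure.real, ENNReal.toReal_pos_iff]
    exact ⟨measure_ball_pos _ _ one_pos, measure_ball_lt_top⟩
  exact hpos.ne' hfin

end Retract

end Pool.Agent.Helper30.Brouwer
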